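import Mathlib
import Pool.Agent.H34.Sub.Defs
import Pool.Agent.H34.Sub.Final

/-!
A lower bound for the number of colours of those proper colourings of `K_n`, without two
vertex-disjoint colour isomorphic copies of the 1-subdivision `H_t` of `K_t`, for which a positive
proportion of the monochromatic pairs of edges agree in an additive statistic.
-/

set_option autoImplicit false

namespace Pool.Agent.Results.MP_e1b89b_co.AdditiveColourings

open PoolH34Sub

/-- The number of pairs of ordered edges `(x, x')`, `(y, y')` (so `x ≠ x'` and `y ≠ y'`) of the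
same colour. -/
noncomputable def monoCount {V α : Type} (c : Sym2 V → α) : ℕ :=
  {e : (V × V) × (V × V) | e.1.1 ≠ e.1.2 ∧ e.2.1 ≠ e.2.2 ∧
    c s(e.1.1, e.1.2) = c s(e.2.1, e.2.2)}.ncard

/-- The number of those pairs of ordered edges `(x, x')`, `(y, y')` of the same colour for which
`p x + p x' = p y + p y'`. -/
noncomputable def addMonoCount {V α G : Type} [AddCommGroup G] (c : Sym2 V → α) (p : V → G) : ℕ :=
  {e : (V × V) × (V × V) | e.1.1 ≠ e.1.2 ∧ e.2.1 ≠ e.2.2 ∧
    c s(e.1.1, e.1.2) = c s(e.2.1, e.2.2) ∧ p e.1.1 + p e.1.2 = p e.2.1 + p e.2.2}.ncard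

/-- For every `t ≥ 3` there is a constant `K` such that: let `c` be a proper edge-colouring of the
complete graph on a set `V` of size `n ≥ 2` with no two vertex-disjoint colour isomorphic copies
of `H_t`, let `p` be a map from `V` to an abelian group which is at most `m` to one, and suppose
that at least one in `q` of the monochromatic pairs of ordered edges has equal sums of `p`. Then
the number `C` of colours used satisfies `n ^ (3 t - 4) ≤ K * m ^ (t - 2) * (q * C) ^ (2 t - 3)`. -/
theorem result :
    ∀ t : ℕ, 3 ≤ t → ∃ K : ℕ, ∀ (V α G : Type) [Fintype V] [DecidableEq V] [DecidableEq α]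
      [AddCommGroup G] (c : Sym2 V → α) (p : V → G) (m q : ℕ),
      2 ≤ Fintype.card V →
      IsProperColouring c →
      ¬ HasTwoIsomorphicCopies c (subdivK t) →
      (∀ g : G, {x : V | p x = g}.ncard ≤ m) →
      monoCount c ≤ q * addMonoCount c p →
      Fintype.card V ^ (3 * t - 4) ≤
        K * m ^ (t - 2) * (q * (coloursUsed c).card) ^ (2 * t - 3) := by
  intro t ht
  obtain ⟨s, rfl⟩ : ∃ s, t = s + 1 + 2 := ⟨t - 3, by omega⟩
  refine ⟨⌈(4 ^ (2 * (s + 1) + 1) * KE (s + 1) : ℝ)⌉₊, ?_⟩
  intro V α G _ _ _ _ c p m q hV hc hno hm hq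
  classical
  have hm' : ∀ g, ((Finset.univ : Finset V).filter (fun x => p x = g)).card ≤ m := by
    intro g
    have h := hm g
    rw [Set.ncard_eq_toFinset_card'] at h
    refine le_trans (le_of_eq ?_) h
    congr 1
    ext x
    simp
  have hmono : (monoPairs c).card = monoCount c := by
    unfold monoCount
    rw [Set.ncard_eq_toFinset_card']
    congr 1
    ext e
    simp only [monoPairs, Finset.mem_filter, Finset.mem_product, Finset.mem_offDiag,
      Finset.mem_univ, true_and, Set.mem_toFinset, Set.mem_setOf_eq]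
    tauto
  have hadd : (addPairs c p).card = addMonoCount c p := by
    unfold addMonoCount
    rw [Set.ncard_eq_toFinset_card']
    congr 1
    ext e
    simp only [addPairs, monoPairs, Finset.mem_filter, Finset.mem_product, Finset.mem_offDiag,
      Finset.mem_univ, true_and, Set.mem_toFinset, Set.mem_setOf_eq]
    tauto
  have h := mainJ hc s p m hm' q (by rw [hmono, hadd]; exact hq) hno hV
  have e1 : 3 * (s + 1 + 2) - 4 = 3 * (s + 1) + 2 := by omega
  have e2 : s + 1 + 2 - 2 = s + 1 := by omega
  have e3 : 2 * (s + 1 + 2) - 3 = 2 * (s + 1) + 1 := by omega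
  rw [e1, e2, e3]
  have h2 : (4 ^ (2 * (s + 1) + 1) * KE (s + 1) : ℝ) ≤
      ((⌈(4 ^ (2 * (s + 1) + 1) * KE (s + 1) : ℝ)⌉₊ : ℕ) : ℝ) := Nat.le_ceil _
  have h3 : ((Fintype.card V ^ (3 * (s + 1) + 2) : ℕ) : ℝ) ≤
      ((⌈(4 ^ (2 * (s + 1) + 1) * KE (s + 1) : ℝ)⌉₊ * m ^ (s + 1) *
        (q * (coloursUsed c).card) ^ (2 * (s + 1) + 1) : ℕ) : ℝ) := by
    push_cast
    refine le_trans h ?_
    apply mul_le_mul_of_nonneg_right _ (by positivity)
    exact mul_le_mul_of_nonneg_right h2 (by positivity)
  exact_mod_cast h3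

end Pool.Agent.Results.MP_e1b89b_co.AdditiveColourings
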